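import Pool.Agent.H37.UMD.Stmts

/-!
Ultimate matching, module DER: derivative of a cell mean along a line.
-/

set_option autoImplicit false

open MeasureTheory ProbabilityTheory

namespace Pool.UMD

theorem sDer : SDer := by
  intro G G1 G2 T hS a v A g
  have hap : Continuous (fun z : ℝ × ℝ => A.ap z) := by
    unfold Mat.ap
    fun_prop
  have hpt : ∀ (s : ℝ), Continuous (fun z : ℝ × ℝ => a + s • v + A.ap z) := by
    intro s
    exact continuous_const.add hap
  have hmG : ∀ s : ℝ, AEStronglyMeasurable (fun z : ℝ × ℝ => G (a + s • v + A.ap z)) g2 :=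
    fun s => (hS.c0.comp (hpt s)).aestronglyMeasurable
  have hint : ∀ (f : ℝ × ℝ → ℝ), Continuous f → (∀ x, |f x| ≤ T) → ∀ s : ℝ,
      Integrable (fun z : ℝ × ℝ => f (a + s • v + A.ap z)) g2 := by
    intro f hf hb s
    refine Integrable.of_bound ((hf.comp (hpt s)).aestronglyMeasurable) T ?_
    exact Filter.Eventually.of_forall fun z => by
      simpa [Real.norm_eq_abs] using hb (a + s • v + A.ap z)
  have key := hasDerivAt_integral_of_dominated_loc_of_deriv_le
    (μ := g2) (F := fun (s : ℝ) (z : ℝ × ℝ) => G (a + s • v + A.ap z))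
    (F' := fun (s : ℝ) (z : ℝ × ℝ) =>
      v.1 * G1 (a + s • v + A.ap z) + v.2 * G2 (a + s • v + A.ap z))
    (x₀ := g) (s := Set.univ) (bound := fun _ => |v.1| * T + |v.2| * T)
    Filter.univ_mem (Filter.Eventually.of_forall hmG) (hint G hS.c0 hS.b0 g)
    (by
      exact (((hS.c1.comp (hpt g)).const_smul v.1).add
        ((hS.c2.comp (hpt g)).const_smul v.2)).aestronglyMeasurable)
    (Filter.Eventually.of_forall fun z s _ => by
      rw [Real.norm_eq_abs]
      refine (abs_add_le _ _).trans ?_
      rw [abs_mul, abs_mul]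
      exact add_le_add (mul_le_mul_of_nonneg_left (hS.b1 _) (abs_nonneg _))
        (mul_le_mul_of_nonneg_left (hS.b2 _) (abs_nonneg _)))
    (integrable_const _)
    (Filter.Eventually.of_forall fun z s _ => by
      have h := hS.der (a + A.ap z) v s
      have e1 : ∀ u : ℝ, a + A.ap z + u • v = a + u • v + A.ap z := by
        intro u
        abel
      simp only [e1] at h
      exact h)
  have h2 := key.2
  have e2 : (∫ z, (v.1 * G1 (a + g • v + A.ap z) + v.2 * G2 (a + g • v + A.ap z)) ∂g2)
      = v.1 * mu G1 (a + g • v) A + v.2 * mu G2 (a + g • v) A := by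
    rw [integral_add ((hint G1 hS.c1 hS.b1 g).const_mul v.1)
      ((hint G2 hS.c2 hS.b2 g).const_mul v.2), integral_const_mul, integral_const_mul]
    rfl
  rw [e2] at h2
  exact h2

end Pool.UMD
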