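import Pool.Agent.H37.UMD.Stmts

/-!
Ultimate matching, module DRI: the integrated drift lemma.
-/

set_option autoImplicit false

open MeasureTheory ProbabilityTheory

namespace Pool.UMD

/-- The matrix `B_L^{-1/2} A / √det A`. -/
noncomputable def DRI_M (β₁ β₂ L : ℝ) (A : Mat) : Mat :=
  ⟨L ^ (-β₁) * A.a / √A.det, L ^ (-β₁) * A.b / √A.det,
    L ^ (-β₂) * A.c / √A.det, L ^ (-β₂) * A.d / √A.det⟩

theorem DRI_nm_smul (c : ℝ) (hc : 0 < c) (x : ℝ × ℝ) : nm (x.1 / c, x.2 / c) = nm x / c := by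
  unfold nm
  rw [show (x.1 / c, x.2 / c).1 ^ 2 + (x.1 / c, x.2 / c).2 ^ 2
      = (x.1 ^ 2 + x.2 ^ 2) / c ^ 2 by
        simp only
        rw [div_pow, div_pow, add_div]]
  rw [Real.sqrt_div (by positivity), Real.sqrt_sq hc.le]

theorem DRI_tr (β₁ β₂ L : ℝ) (hL : 0 < L) (A : Mat) (hA : 0 < A.det) (p : ℝ × ℝ) :
    nm ((DRI_M β₁ β₂ L A).tr (L ^ β₁ * p.1, L ^ β₂ * p.2)) = √(TA A p) := by
  have h1 : L ^ (-β₁) * L ^ β₁ = 1 := by
    rw [← Real.rpow_add hL]
    simp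
  have h2 : L ^ (-β₂) * L ^ β₂ = 1 := by
    rw [← Real.rpow_add hL]
    simp
  have hs : 0 < √A.det := Real.sqrt_pos.2 hA
  have e : (DRI_M β₁ β₂ L A).tr (L ^ β₁ * p.1, L ^ β₂ * p.2)
      = ((A.tr p).1 / √A.det, (A.tr p).2 / √A.det) := by
    unfold Mat.tr DRI_M
    ext
    · simp only
      have : L ^ (-β₁) * A.a / √A.det * (L ^ β₁ * p.1) + L ^ (-β₂) * A.c / √A.det * (L ^ β₂ * p.2)
          = ((L ^ (-β₁) * L ^ β₁) * (A.a * p.1) + (L ^ (-β₂) * L ^ β₂) * (A.c * p.2)) / √A.det := by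
        ring
      rw [this, h1, h2, one_mul, one_mul]
    · simp only
      have : L ^ (-β₁) * A.b / √A.det * (L ^ β₁ * p.1) + L ^ (-β₂) * A.d / √A.det * (L ^ β₂ * p.2)
          = ((L ^ (-β₁) * L ^ β₁) * (A.b * p.1) + (L ^ (-β₂) * L ^ β₂) * (A.d * p.2)) / √A.det := by
        ring
      rw [this, h1, h2, one_mul, one_mul]
  rw [e, DRI_nm_smul _ hs, TA, Real.sqrt_div (by positivity), Real.sqrt_sq (by
    unfold nm
    positivity)]

theorem DRI_tau (β₁ β₂ L : ℝ) (A : Mat) (hA : 0 < A.det) :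
    (DRI_M β₁ β₂ L A).a ^ 2 + (DRI_M β₁ β₂ L A).b ^ 2 + (DRI_M β₁ β₂ L A).c ^ 2
      + (DRI_M β₁ β₂ L A).d ^ 2 = tau β₁ β₂ L A := by
  unfold DRI_M tau
  simp only
  rw [div_pow, div_pow, div_pow, div_pow, Real.sq_sqrt hA.le]
  field_simp
  ring

theorem DRI_nm_nonneg (x : ℝ × ℝ) : 0 ≤ nm x := Real.sqrt_nonneg _

theorem DRI_NL_nonneg (β₁ β₂ L : ℝ) (p : ℝ × ℝ) : 0 ≤ NL β₁ β₂ L p := Real.sqrt_nonneg _

theorem DRI_FL_nonneg (β₁ β₂ L : ℝ) (A : Mat) (p : ℝ × ℝ) : 0 ≤ FL β₁ β₂ L A p := by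
  unfold FL
  exact div_nonneg (sq_nonneg _) (DRI_NL_nonneg _ _ _ _)

theorem DRI_FL_le (hN : SNlp) (β₁ β₂ : ℝ) (h1 : 0 < β₁) (h2 : 0 < β₂) (h3 : β₁ + β₂ = 1 / 2)
    (L : ℝ) (hL : 16 ≤ L) (A : Mat) (hA : 0 < A.det) (ht : tau β₁ β₂ L A ≤ 6) (q : ℝ × ℝ) :
    FL β₁ β₂ L A q ≤ 6 * NL β₁ β₂ L q := by
  have hT := (hN β₁ β₂ h1 h2 h3).2.2.2.2.2.1 L A q (by linarith) hA
  have hN0 := DRI_NL_nonneg β₁ β₂ L q
  rcases hN0.eq_or_lt with h0 | h0
  · unfold FL
    rw [← h0]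
    simp
  · unfold FL
    rw [div_le_iff₀ h0]
    have hT0 : 0 ≤ TA A q := by
      unfold TA
      positivity
    have hm : max (√(TA A q) - √(40 / L) * NL β₁ β₂ L q) 0 ≤ √(TA A q) := by
      apply max_le
      · have : 0 ≤ √(40 / L) * NL β₁ β₂ L q := by positivity
        linarith
      · positivity
    calc (max (√(TA A q) - √(40 / L) * NL β₁ β₂ L q) 0) ^ 2 ≤ (√(TA A q)) ^ 2 :=
          pow_le_pow_left₀ (le_max_right _ _) hm 2
      _ = TA A q := Real.sq_sqrt hT0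
      _ ≤ tau β₁ β₂ L A * NL β₁ β₂ L q ^ 2 := hT
      _ ≤ 6 * NL β₁ β₂ L q ^ 2 := by
          exact mul_le_mul_of_nonneg_right ht (sq_nonneg _)
      _ = 6 * NL β₁ β₂ L q * NL β₁ β₂ L q := by ring

theorem DRI_nm_le (x : ℝ × ℝ) (c : ℝ) (h1 : |x.1| ≤ c) (h2 : |x.2| ≤ c) : nm x ≤ 2 * c := by
  have hc : 0 ≤ c := (abs_nonneg _).trans h1
  unfold nm
  rw [show 2 * c = √((2 * c) ^ 2) by rw [Real.sqrt_sq (by linarith)]]
  apply Real.sqrt_le_sqrt
  have a1 : x.1 ^ 2 ≤ c ^ 2 := sq_le_sq' (by linarith [neg_abs_le x.1]) (by linarith [le_abs_self x.1])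
  have a2 : x.2 ^ 2 ≤ c ^ 2 := sq_le_sq' (by linarith [neg_abs_le x.2]) (by linarith [le_abs_self x.2])
  nlinarith [sq_nonneg c]

theorem sDri (hD : SDrf) (hN : SNlp) (hJ : SJen) : SDri := by
  intro β₁ β₂ h1 h2 h3 L hL A hA ht p q B hq hB hq1 hq2
  have hL0 : 0 < L := by linarith
  have hB0 : 0 ≤ B := (abs_nonneg _).trans (hB 0).1
  have hN' := hN β₁ β₂ h1 h2 h3
  -- measurability
  have hq1m : Measurable (fun g => (q g).1) := measurable_fst.comp hq
  have hq2m : Measurable (fun g => (q g).2) := measurable_snd.comp hq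
  have hNm : Measurable (fun g => NL β₁ β₂ L (q g)) := by
    unfold NL nm
    fun_prop
  have hFm : Measurable (fun g => FL β₁ β₂ L A (q g)) := by
    unfold FL TA NL nm Mat.tr
    fun_prop
  have hNb : ∀ g, NL β₁ β₂ L (q g) ≤ √L * (2 * B) := by
    intro g
    refine ((hN'.1 L (q g) (by linarith)).2).trans ?_
    exact mul_le_mul_of_nonneg_left (DRI_nm_le _ _ (hB g).1 (hB g).2) (Real.sqrt_nonneg _)
  have hNi : Integrable (fun g => NL β₁ β₂ L (q g)) g1 := by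
    refine Integrable.of_bound hNm.aestronglyMeasurable (√L * (2 * B)) ?_
    exact Filter.Eventually.of_forall fun g => by
      rw [Real.norm_eq_abs, abs_of_nonneg (DRI_NL_nonneg _ _ _ _)]
      exact hNb g
  have hFb : ∀ g, FL β₁ β₂ L A (q g) ≤ 6 * NL β₁ β₂ L (q g) :=
    fun g => DRI_FL_le hN β₁ β₂ h1 h2 h3 L hL A hA ht (q g)
  have hFi : Integrable (fun g => FL β₁ β₂ L A (q g)) g1 := by
    refine Integrable.of_bound hFm.aestronglyMeasurable (6 * (√L * (2 * B))) ?_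
    exact Filter.Eventually.of_forall fun g => by
      rw [Real.norm_eq_abs, abs_of_nonneg (DRI_FL_nonneg _ _ _ _ _)]
      exact (hFb g).trans (mul_le_mul_of_nonneg_left (hNb g) (by norm_num))
  have hq1i : Integrable (fun g => (q g).1) g1 := by
    refine Integrable.of_bound hq1m.aestronglyMeasurable B ?_
    exact Filter.Eventually.of_forall fun g => by
      rw [Real.norm_eq_abs]
      exact (hB g).1
  have hq2i : Integrable (fun g => (q g).2) g1 := by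
    refine Integrable.of_bound hq2m.aestronglyMeasurable B ?_
    exact Filter.Eventually.of_forall fun g => by
      rw [Real.norm_eq_abs]
      exact (hB g).2
  have hJp : NL β₁ β₂ L p ≤ ∫ g, NL β₁ β₂ L (q g) ∂g1 := by
    have := hJ β₁ β₂ L g1 q B hq hB
    rw [hq1, hq2] at this
    exact this
  by_cases hp : p = 0
  · -- the trivial case
    have hF0 : FL β₁ β₂ L A p = 0 := by
      have : NL β₁ β₂ L p = 0 := by
        rw [hp]
        unfold NL nm
        simp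
      unfold FL
      rw [this]
      simp
    have hN0 : NL β₁ β₂ L p = 0 := by
      rw [hp]
      unfold NL nm
      simp
    rw [hF0, hN0]
    have := integral_mono hFi (hNi.const_mul 6) hFb
    rw [integral_const_mul] at this
    have h0 : 0 ≤ ∫ g, NL β₁ β₂ L (q g) ∂g1 := integral_nonneg fun g => DRI_NL_nonneg _ _ _ _
    linarith
  · set x : ℝ × ℝ := (L ^ β₁ * p.1, L ^ β₂ * p.2) with hx
    have hxne : x ≠ 0 := by
      intro h
      apply hp
      have a1 : L ^ β₁ * p.1 = 0 := congrArg Prod.fst h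
      have a2 : L ^ β₂ * p.2 = 0 := congrArg Prod.snd h
      have b1 : L ^ β₁ ≠ 0 := (Real.rpow_pos_of_pos hL0 _).ne'
      have b2 : L ^ β₂ ≠ 0 := (Real.rpow_pos_of_pos hL0 _).ne'
      ext
      · simpa [b1] using a1
      · simpa [b2] using a2
    obtain ⟨l, hl1, hl2⟩ := hD (DRI_M β₁ β₂ L A) (√(40 / L)) x (Real.sqrt_nonneg _) hxne
    rw [DRI_tau β₁ β₂ L A hA] at hl2
    have hFp : FL β₁ β₂ L A p = dot l x := by
      rw [hl1, hx, DRI_tr β₁ β₂ L hL0 A hA p]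
      rfl
    have hnx : nm x = NL β₁ β₂ L p := rfl
    have hnx0 : 0 < nm x := by
      unfold nm
      apply Real.sqrt_pos.2
      rcases (sq_nonneg x.1).eq_or_lt with h | h
      · rcases (sq_nonneg x.2).eq_or_lt with h' | h'
        · exfalso
          apply hxne
          ext
          · exact pow_eq_zero_iff (two_ne_zero) |>.1 h.symm
          · exact pow_eq_zero_iff (two_ne_zero) |>.1 h'.symm
        · positivity
      · positivity
    have hpt : ∀ g, FL β₁ β₂ L A (q g) ≤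
        (l.1 * (L ^ β₁ * (q g).1) + l.2 * (L ^ β₂ * (q g).2)) +
        6 * tau β₁ β₂ L A * (NL β₁ β₂ L (q g)
          - (x.1 * (L ^ β₁ * (q g).1) + x.2 * (L ^ β₂ * (q g).2)) / nm x) := by
      intro g
      have := hl2 (L ^ β₁ * (q g).1, L ^ β₂ * (q g).2)
      rw [DRI_tr β₁ β₂ L hL0 A hA (q g)] at this
      exact this
    have hlin : ∀ c d : ℝ, Integrable (fun g => c * (L ^ β₁ * (q g).1) + d * (L ^ β₂ * (q g).2)) g1 ∧
        ∫ g, (c * (L ^ β₁ * (q g).1) + d * (L ^ β₂ * (q g).2)) ∂g1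
          = c * (L ^ β₁ * p.1) + d * (L ^ β₂ * p.2) := by
      intro c d
      have i1 := (hq1i.const_mul (L ^ β₁)).const_mul c
      have i2 := (hq2i.const_mul (L ^ β₂)).const_mul d
      refine ⟨i1.add i2, ?_⟩
      rw [integral_add i1 i2, integral_const_mul, integral_const_mul, integral_const_mul,
        integral_const_mul, hq1, hq2]
    obtain ⟨iA, eA⟩ := hlin l.1 l.2
    obtain ⟨iB, eB⟩ := hlin x.1 x.2
    have iC : Integrable (fun g => 6 * tau β₁ β₂ L A * (NL β₁ β₂ L (q g)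
          - (x.1 * (L ^ β₁ * (q g).1) + x.2 * (L ^ β₂ * (q g).2)) / nm x)) g1 :=
      (hNi.sub (iB.div_const _)).const_mul _
    have hmono := integral_mono hFi (iA.add iC) hpt
    have e1 : ∫ g, ((fun g => l.1 * (L ^ β₁ * (q g).1) + l.2 * (L ^ β₂ * (q g).2)) +
        fun g => 6 * tau β₁ β₂ L A * (NL β₁ β₂ L (q g)
          - (x.1 * (L ^ β₁ * (q g).1) + x.2 * (L ^ β₂ * (q g).2)) / nm x)) g ∂g1
        = FL β₁ β₂ L A p + 6 * tau β₁ β₂ L A * (∫ g, NL β₁ β₂ L (q g) ∂g1 - NL β₁ β₂ L p) := by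
      rw [integral_add' iA iC, eA, integral_const_mul, integral_sub hNi (iB.div_const _),
        integral_div, eB, hFp]
      have e3 : (x.1 * (L ^ β₁ * p.1) + x.2 * (L ^ β₂ * p.2)) / nm x = NL β₁ β₂ L p := by
        rw [← hnx, div_eq_iff hnx0.ne']
        have : nm x * nm x = x.1 ^ 2 + x.2 ^ 2 := by
          unfold nm
          exact Real.mul_self_sqrt (by positivity)
        rw [this, hx]
        ring
      rw [e3]
      rfl
    rw [e1] at hmono
    have htau0 : 6 * tau β₁ β₂ L A ≤ 36 := by linarith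
    have := mul_le_mul_of_nonneg_right htau0 (sub_nonneg.2 hJp)
    linarith

end Pool.UMD
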